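import Pool.Agent.H8.BV.Targets

set_option autoImplicit false

open MvPolynomial
open Pool.Agent.H12.ZD (pmap)
open Pool.Agent.H18.HIT Pool.Agent.H18.HX Pool.Agent.H18.VZ
open Pool.Agent.H8.BIG (KF line)
open Pool.Agent.H8.BV

namespace Pool.Agent.H46.BV

theorem pf_LNP : T_LNP := by
  classical
  intro N E r k _ _ S x hN hr hS hx0 hxp ρ
  obtain ⟨M, rfl⟩ : ∃ M, N = M + 2 := ⟨N - 2, by omega⟩
  -- the linear form in the parameters
  let l : (Fin (M + 2) → k) → Po (M + 2) k := fun y => ∑ i, C (y i) * X i
  have hl : ∀ y u : Fin (M + 2) → k, eval u (l y) = ∑ i, y i * u i := by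
    intro y u
    simp [l, map_sum]
  let G : Fin E → Fin E → Po (M + 2) k := fun a b => (l (x a)) ^ r - C (ρ a b) * (l (x b)) ^ r
  have hl0 : ∀ a, l (x a) ≠ 0 := by
    intro a h
    apply hx0 a
    funext i
    have h1 := hl (x a) (Pi.single i 1)
    rw [h, map_zero] at h1
    rw [Finset.sum_eq_single i] at h1
    · simpa using h1.symm
    · intro j _ hj
      simp [Pi.single_eq_of_ne hj]
    · intro h2; exact absurd (Finset.mem_univ i) h2
  have hG0 : ∀ a b, a ≠ b → G a b ≠ 0 := by
    intro a b hab h
    have h1 := hxp a b hab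
    unfold Prp at h1
    push Not at h1
    obtain ⟨s, t, hst⟩ := h1
    set u : Fin (M + 2) → k := fun i => (if i = s then x b t else 0) - (if i = t then x b s else 0)
      with hu
    have hdot : ∀ y : Fin (M + 2) → k, eval u (l y) = y s * x b t - y t * x b s := by
      intro y
      rw [hl]
      have : ∀ i, y i * u i
          = (if i = s then y i * x b t else 0) - (if i = t then y i * x b s else 0) := by
        intro i
        simp only [hu]
        split_ifs <;> ring
      rw [Finset.sum_congr rfl (fun i _ => this i), Finset.sum_sub_distrib,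
        Finset.sum_ite_eq' Finset.univ s, Finset.sum_ite_eq' Finset.univ t]
      simp
    have h2 : eval u (G a b) = (x a s * x b t - x a t * x b s) ^ r := by
      simp only [G, map_sub, map_mul, map_pow, eval_C, hdot]
      have : x b s * x b t - x b t * x b s = 0 := by ring
      rw [this, zero_pow (by omega), mul_zero, sub_zero]
    rw [h, map_zero] at h2
    have h3 := pow_eq_zero_iff (by omega : r ≠ 0) |>.1 h2.symm
    exact hst (sub_eq_zero.1 h3)
  -- a point `v` with `S(v) ≠ 0` and `v_1 ≠ 0`
  obtain ⟨v, hv⟩ : ∃ v, eval v (S * X 1) ≠ 0 := by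
    by_contra hcon
    push Not at hcon
    have h1 : S * X 1 = 0 := by
      apply MvPolynomial.funext
      intro z
      rw [hcon z, map_zero]
    rcases mul_eq_zero.1 h1 with h2 | h2
    · exact hS h2
    · exact MvPolynomial.X_ne_zero 1 h2
  have hvS : eval v S ≠ 0 := by
    intro h; apply hv; rw [map_mul, h, zero_mul]
  have hv1 : v 1 ≠ 0 := by
    intro h; apply hv; rw [map_mul, eval_X, h, mul_zero]
  -- the point `w(u) = u_0 v - (u . v) e_0`
  let w : Fin (M + 2) → Po (M + 2) k := fun i => C (v i) * X 0 - if i = 0 then l v else 0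
  have hw : ∀ u i, eval u (w i) = v i * u 0 - if i = 0 then (∑ j, v j * u j) else 0 := by
    intro u i
    simp only [w, map_sub, map_mul, eval_C, eval_X]
    split_ifs with h
    · rw [hl]
    · rw [map_zero]
  let R : Po (M + 2) k := aeval w S
  have hRe : ∀ u, eval u R = eval (fun i => eval u (w i)) S := by
    intro u
    show eval u (aeval w S) = _
    rw [MvPolynomial.aeval_def, MvPolynomial.eval₂_eq_eval_map]
    have h1 : ∀ p : Po (M + 2) k, eval u (aeval w p) = eval (fun i => eval u (w i)) p := by
      intro p
      induction p using MvPolynomial.induction_on with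
      | C a => simp
      | add p q hp hq => simp only [map_add, hp, hq]
      | mul_X p i hp => simp only [map_mul, hp, aeval_X, eval_X]
    have h2 := h1 S
    rw [MvPolynomial.aeval_def, MvPolynomial.eval₂_eq_eval_map] at h2
    exact h2
  have hR0 : R ≠ 0 := by
    intro h
    let u : Fin (M + 2) → k := fun i => if i = 0 then 1 else if i = 1 then - v 0 / v 1 else 0
    have h1 := hRe u
    rw [h, map_zero] at h1
    have h2 : (∑ j, v j * u j) = 0 := by
      rw [Fin.sum_univ_succ, Fin.sum_univ_succ]
      have h3 : ∀ i : Fin M, v i.succ.succ * u i.succ.succ = 0 := by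
        intro i
        have h4 : u i.succ.succ = 0 := by
          simp only [u]
          rw [if_neg (Fin.succ_ne_zero _), if_neg]
          intro h5
          have h6 := congrArg Fin.val h5
          simp at h6
        rw [h4, mul_zero]
      rw [Finset.sum_eq_zero (fun i _ => h3 i)]
      have h7 : u 0 = 1 := by simp [u]
      have h8 : u (Fin.succ 0) = - v 0 / v 1 := by
        simp [u]
      rw [h7, h8]
      have h9 : (Fin.succ 0 : Fin (M + 2)) = 1 := rfl
      rw [h9]
      field_simp
      ring
    have h3 : (fun i => eval u (w i)) = v := by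
      funext i
      rw [hw, h2]
      have h7 : u 0 = 1 := by simp [u]
      rw [h7]
      simp
    rw [h3] at h1
    exact hvS h1.symm
  let P : Po (M + 2) k := (X 0 * R) * ((∏ a, l (x a)) *
    ∏ p : Fin E × Fin E, if p.1 = p.2 then (1 : Po (M + 2) k) else G p.1 p.2)
  have hP : P ≠ 0 := by
    refine mul_ne_zero (mul_ne_zero (MvPolynomial.X_ne_zero 0) hR0) (mul_ne_zero ?_ ?_)
    · exact Finset.prod_ne_zero_iff.2 (fun a _ => hl0 a)
    · refine Finset.prod_ne_zero_iff.2 (fun p _ => ?_)
      split_ifs with h
      · exact one_ne_zero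
      · exact hG0 _ _ h
  obtain ⟨u, hu⟩ : ∃ u, eval u P ≠ 0 := by
    by_contra hcon
    push Not at hcon
    apply hP
    apply MvPolynomial.funext
    intro z
    rw [hcon z, map_zero]
  have hu1 : ∀ a, eval u (l (x a)) ≠ 0 := by
    intro a h
    apply hu
    simp only [P, map_mul, map_prod]
    rw [Finset.prod_eq_zero (Finset.mem_univ a) h, zero_mul, mul_zero]
  have hu2 : ∀ a b, a ≠ b → eval u (G a b) ≠ 0 := by
    intro a b hab h
    apply hu
    have h5 : ∏ p : Fin E × Fin E,
        eval u (if p.1 = p.2 then (1 : Po (M + 2) k) else G p.1 p.2) = 0 := by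
      apply Finset.prod_eq_zero (Finset.mem_univ (a, b))
      show eval u (if a = b then (1 : Po (M + 2) k) else G a b) = 0
      rw [if_neg hab, h]
    simp only [P, map_mul, map_prod]
    rw [h5, mul_zero, mul_zero]
  have hu0 : u 0 ≠ 0 := by
    intro h
    apply hu
    simp only [P, map_mul, eval_X]
    rw [h, zero_mul, zero_mul]
  have huR : eval u R ≠ 0 := by
    intro h
    apply hu
    simp only [P, map_mul]
    rw [h, mul_zero, zero_mul]
  have hev : ∀ a, eval (x a) ((∑ i, C (u i) * X i : Po (M + 2) k) ^ r)
      = (eval u (l (x a))) ^ r := by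
    intro a
    have h6 : eval (x a) (∑ i, C (u i) * X i : Po (M + 2) k) = eval u (l (x a)) := by
      rw [hl (x a) u]
      simp only [map_sum, map_mul, eval_C, eval_X]
      exact Finset.sum_congr rfl (fun i _ => mul_comm _ _)
    rw [map_pow, h6]
  -- the linear form
  have hL1 : (∑ i, C (u i) * X i : Po (M + 2) k).IsHomogeneous 1 := by
    apply MvPolynomial.IsHomogeneous.sum
    intro i _
    have := (isHomogeneous_C (Fin (M + 2)) (u i)).mul (isHomogeneous_X k i)
    simpa using this
  have hLu : l u = (∑ i, C (u i) * X i : Po (M + 2) k) := rfl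
  have hLne : (∑ i, C (u i) * X i : Po (M + 2) k) ≠ 0 := by
    intro h
    have h1 := hl u (Pi.single 0 1)
    rw [hLu, h, map_zero, Finset.sum_eq_single 0] at h1
    · apply hu0; simpa using h1.symm
    · intro j _ hj
      simp [Pi.single_eq_of_ne hj]
    · intro h2; exact absurd (Finset.mem_univ _) h2
  refine ⟨(∑ i, C (u i) * X i) ^ r, ?_, pow_ne_zero _ hLne, ?_, ?_, ?_⟩
  · have := hL1.pow r
    simpa using this
  · intro q hq hqS hqL
    have h1 : q ∣ (∑ i, C (u i) * X i : Po (M + 2) k) :=
      (UniqueFactorizationMonoid.irreducible_iff_prime.1 hq).dvd_of_dvd_pow hqL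
    obtain ⟨c, hc⟩ := h1
    have hc0 : c ≠ 0 := by
      rintro rfl
      rw [mul_zero] at hc
      exact hLne hc
    have h2 := MvPolynomial.totalDegree_mul_of_isDomain hq.ne_zero hc0
    rw [← hc, hL1.totalDegree hLne] at h2
    have hq1 : q.totalDegree ≠ 0 := by
      intro h3
      rw [MvPolynomial.totalDegree_eq_zero_iff_eq_C] at h3
      apply hq.not_isUnit
      rw [h3]
      have h8 : coeff 0 q ≠ 0 := by
        intro h4
        rw [h4, map_zero] at h3
        exact hq.ne_zero h3
      exact (isUnit_iff_ne_zero.2 h8).map C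
    have hc1 : c.totalDegree = 0 := by omega
    rw [MvPolynomial.totalDegree_eq_zero_iff_eq_C] at hc1
    have hcc : coeff 0 c ≠ 0 := by
      intro h4
      rw [h4, map_zero] at hc1
      exact hc0 hc1
    -- at the point `w(u)` the linear form vanishes and `S` does not
    set z : Fin (M + 2) → k := fun i => eval u (w i) with hz
    have h5 : eval z (∑ i, C (u i) * X i : Po (M + 2) k) = 0 := by
      rw [← hLu, hl]
      have h6 : ∀ i, u i * z i = u i * (v i * u 0) -
          if i = 0 then u i * (∑ j, v j * u j) else 0 := by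
        intro i
        rw [hz]
        simp only [hw]
        split_ifs <;> ring
      rw [Finset.sum_congr rfl (fun i _ => h6 i), Finset.sum_sub_distrib,
        Finset.sum_ite_eq' Finset.univ (0 : Fin (M + 2))]
      simp only [Finset.mem_univ, if_true]
      rw [Finset.mul_sum, ← Finset.sum_sub_distrib]
      refine Finset.sum_eq_zero (fun i _ => ?_)
      ring
    rw [hc, map_mul, hc1, eval_C] at h5
    have h7 : eval z q = 0 := by
      rcases mul_eq_zero.1 h5 with h8 | h8
      · exact h8
      · exact absurd h8 hcc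
    obtain ⟨e, he⟩ := hqS
    apply huR
    rw [hRe, he, map_mul, h7, zero_mul]
  · intro a
    rw [hev]
    exact pow_ne_zero _ (hu1 a)
  · intro a b hab h
    apply hu2 a b hab
    rw [hev, hev] at h
    simp only [G, map_sub, map_mul, map_pow, eval_C]
    exact sub_eq_zero.2 h

end Pool.Agent.H46.BV
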